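import Mathlib
import Pool.Agent.Y825.CG.Numer

set_option autoImplicit false

/-!
The move number `M(q)` of the Maker-Breaker clique game on the infinite complete graph (Maker and
Breaker alternately claim one edge, Maker first): `M(q) ≤ C q ^ (4 / 3) 2 ^ (2 q / 3)`. Hence `M(q)`
is exponentially closer to the known lower bound `2 ^ (q / 2)` than to the known upper bound
`2 ^ (q + 2)`.

The game (`Strategy`, `makerGraph`, `MakerWinsWithin`, `moveNumber`) is defined in the starting file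
`Pool.Agent.Helper679.CGDefs`. Maker's win of the finite clique game on `K_N` for
`q ≤ 2 log₂ N - 2 log₂ log₂ N - C` is `Pool.Agent.Helper340.MB.clique_forces` (starting file).

Strategy: Maker first makes about `q / 3` hubs `v_1, v_2, ...`. While he joins the hub `v_i` to half
of the common neighbourhood `U` of the earlier hubs he always takes the undecided vertex of the
smallest (weighted) degree in Breaker's graph; this keeps the average degree of Breaker's graph
inside `U` bounded. In the end `U` contains an untouched set of about `q 2 ^ (q / 3)` vertices, on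
which Maker plays the finite clique game.
-/

namespace Pool.Agent.Results.MP_278060_co.UpperBound

open Filter Topology Pool.Agent.Helper679.CliqueGame

lemma makerEdges_mono (μ β : Strategy) {m n : ℕ} (h : m ≤ n) :
    makerEdges μ β m ⊆ makerEdges μ β n := by
  rintro e ⟨i, hi, rfl⟩
  exact ⟨i, by omega, rfl⟩

lemma makerWins_mono {q q' m n : ℕ} (h : m ≤ n) (hq : q' ≤ q) (hm : MakerWinsWithin q m) :
    MakerWinsWithin q' n := by
  obtain ⟨μ, hμ⟩ := hm
  refine ⟨μ, fun β hc => hμ β ?_⟩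
  exact (hc.mono hq).anti (SimpleGraph.fromEdgeSet_mono (makerEdges_mono μ β h))

/-- If Maker can win, the move number is attained. -/
lemma exists_moveNumber {q m : ℕ} (h : MakerWinsWithin q m) :
    ∃ k : ℕ, k ≤ m ∧ moveNumber q = k ∧ IsLeast {m : ℕ | MakerWinsWithin q m} k := by
  classical
  have hex : ∃ k, MakerWinsWithin q k := ⟨m, h⟩
  refine ⟨Nat.find hex, Nat.find_min' hex h, ?_, Nat.find_spec hex, fun k hk => Nat.find_min' hex hk⟩
  refine le_antisymm (iInf_le (fun m : {m : ℕ // MakerWinsWithin q m} => ((m : ℕ) : ℕ∞))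
    ⟨Nat.find hex, Nat.find_spec hex⟩) (le_iInf fun n => ?_)
  exact_mod_cast Nat.find_min' hex n.2

theorem bound : ∃ C : ℝ, 0 < C ∧ ∀ q : ℕ, 1 ≤ q → ∃ m : ℕ, moveNumber q = m ∧
      IsLeast {m : ℕ | MakerWinsWithin q m} m ∧
      (m : ℝ) ≤ C * (q : ℝ) ^ (4 / 3 : ℝ) * 2 ^ (2 * (q : ℝ) / 3) := by
  obtain ⟨C, hC, q₀, h⟩ := Pool.Agent.Y825.CG.upper
  obtain ⟨m₀, hm₀, -⟩ := h q₀ le_rfl
  refine ⟨max C m₀, lt_of_lt_of_le hC (le_max_left _ _), fun q hq => ?_⟩
  have hq1 : (1 : ℝ) ≤ q := by exact_mod_cast hq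
  have h1 : (1 : ℝ) ≤ (q : ℝ) ^ (4 / 3 : ℝ) := Real.one_le_rpow hq1 (by norm_num)
  have h2 : (1 : ℝ) ≤ 2 ^ (2 * (q : ℝ) / 3) := Real.one_le_rpow (by norm_num) (by positivity)
  rcases le_or_gt q₀ q with hle | hlt
  · obtain ⟨m, hm, hmle⟩ := h q hle
    obtain ⟨k, hk1, hk2, hk3⟩ := exists_moveNumber hm
    refine ⟨k, hk2, hk3, ?_⟩
    have h3 : (k : ℝ) ≤ m := by exact_mod_cast hk1
    refine (h3.trans hmle).trans ?_
    gcongr
    exact le_max_left _ _
  · obtain ⟨k, hk1, hk2, hk3⟩ := exists_moveNumber (makerWins_mono le_rfl hlt.le hm₀)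
    refine ⟨k, hk2, hk3, ?_⟩
    have h3 : (k : ℝ) ≤ m₀ := by exact_mod_cast hk1
    calc (k : ℝ) ≤ max C m₀ * 1 * 1 := by
          rw [mul_one, mul_one]; exact h3.trans (le_max_right _ _)
      _ ≤ _ := by gcongr

/-- **Main theorem.** `M(q) ≤ C q ^ (4/3) 2 ^ (2 q / 3)` for all `q ≥ 1` (in particular `M(q)` is a
natural number, the least `m` for which Maker wins within `m` moves); hence
`M(q) / 2 ^ (q / 2) = o(2 ^ q / M(q))`, that is, the ratio of `M(q)` to the lower bound `2 ^ (q / 2)`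
is of smaller order than the ratio of `2 ^ q` to `M(q)`. -/
theorem result :
    (∃ C : ℝ, 0 < C ∧ ∀ q : ℕ, 1 ≤ q → ∃ m : ℕ, moveNumber q = m ∧
      IsLeast {m : ℕ | MakerWinsWithin q m} m ∧
      (m : ℝ) ≤ C * (q : ℝ) ^ (4 / 3 : ℝ) * 2 ^ (2 * (q : ℝ) / 3)) ∧
    Tendsto (fun q : ℕ => (((moveNumber q).toNat : ℝ) / 2 ^ ((q : ℝ) / 2)) /
      (2 ^ (q : ℝ) / ((moveNumber q).toNat : ℝ))) atTop (𝓝 0) := by
  obtain ⟨C, hC, h⟩ := bound
  have hb : ∀ q : ℕ, 1 ≤ q → ((moveNumber q).toNat : ℝ) ≤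
      C * (q : ℝ) ^ (4 / 3 : ℝ) * 2 ^ (2 * (q : ℝ) / 3) := by
    intro q hq
    obtain ⟨m, hm, -, hle⟩ := h q hq
    rw [hm, ENat.toNat_natCast]
    exact hle
  have hasym : ∀ ε : ℝ, 0 < ε → ∀ᶠ q : ℕ in atTop,
      ((moveNumber q).toNat : ℝ) ≤ 2 ^ ((2 / 3 + ε) * q) := by
    intro ε hε
    have h1 : Tendsto (fun x : ℝ => x ^ (4 / 3 : ℝ) * Real.exp (-(ε * Real.log 2) * x)) atTop (𝓝 0) :=
      tendsto_rpow_mul_exp_neg_mul_atTop_nhds_zero _ _ (by positivity)
    have h2 := (h1.comp tendsto_natCast_atTop_atTop).eventually_lt_const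
      (show (0 : ℝ) < 1 / C by positivity)
    filter_upwards [h2, eventually_ge_atTop 1] with q hq hq1
    refine (hb q hq1).trans ?_
    have h3 : (q : ℝ) ^ (4 / 3 : ℝ) * Real.exp (-(ε * Real.log 2) * q) < 1 / C := hq
    rw [lt_div_iff₀ hC] at h3
    have h4 : (2 : ℝ) ^ ((2 / 3 + ε) * (q : ℝ)) = 2 ^ (2 * (q : ℝ) / 3) * Real.exp (ε * Real.log 2 * q) := by
      rw [show (2 / 3 + ε) * (q : ℝ) = 2 * q / 3 + ε * q by ring, Real.rpow_add (by norm_num)]
      congr 1
      rw [Real.rpow_def_of_pos (by norm_num)]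
      congr 1
      ring
    rw [h4]
    have h5 : Real.exp (-(ε * Real.log 2) * q) * Real.exp (ε * Real.log 2 * q) = 1 := by
      rw [← Real.exp_add]
      simp
    have h6 : 0 < Real.exp (ε * Real.log 2 * q) := Real.exp_pos _
    have h7 : C * (q : ℝ) ^ (4 / 3 : ℝ) ≤ Real.exp (ε * Real.log 2 * q) := by
      calc C * (q : ℝ) ^ (4 / 3 : ℝ) = ((q : ℝ) ^ (4 / 3 : ℝ) * Real.exp (-(ε * Real.log 2) * q) * C) *
            Real.exp (ε * Real.log 2 * q) := by
            calc C * (q : ℝ) ^ (4 / 3 : ℝ) = C * (q : ℝ) ^ (4 / 3 : ℝ) *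
                  (Real.exp (-(ε * Real.log 2) * q) * Real.exp (ε * Real.log 2 * q)) := by
                  rw [h5, mul_one]
              _ = _ := by ring
        _ ≤ 1 * Real.exp (ε * Real.log 2 * q) := by gcongr
        _ = _ := one_mul _
    calc C * (q : ℝ) ^ (4 / 3 : ℝ) * 2 ^ (2 * (q : ℝ) / 3)
        ≤ Real.exp (ε * Real.log 2 * q) * 2 ^ (2 * (q : ℝ) / 3) := by gcongr
      _ = _ := mul_comm _ _
  refine ⟨⟨C, hC, h⟩, ?_⟩
  have hlim : Tendsto (fun q : ℕ => (2 : ℝ) ^ (-(1 / 12 : ℝ) * (q : ℝ))) atTop (𝓝 0) := by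
    have h1 : Tendsto (fun x : ℝ => (2 : ℝ) ^ (-(1 / 12 : ℝ) * x)) atTop (𝓝 0) := by
      have h2 : Tendsto (fun x : ℝ => Real.exp (-(Real.log 2 / 12 * x))) atTop (𝓝 0) :=
        Real.tendsto_exp_neg_atTop_nhds_zero.comp
          (tendsto_id.const_mul_atTop (by positivity))
      refine h2.congr fun x => ?_
      rw [Real.rpow_def_of_pos (by norm_num)]
      congr 1
      ring
    exact h1.comp tendsto_natCast_atTop_atTop
  refine tendsto_of_tendsto_of_tendsto_of_le_of_le' tendsto_const_nhds hlim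
    (Eventually.of_forall fun q => by positivity) ?_
  filter_upwards [hasym (1 / 24) (by norm_num)] with q hq
  set M : ℝ := ((moveNumber q).toNat : ℝ) with hM
  have hM0 : 0 ≤ M := by positivity
  have e1 : M / 2 ^ ((q : ℝ) / 2) / (2 ^ (q : ℝ) / M) = M ^ 2 / (2 ^ ((q : ℝ) / 2) * 2 ^ (q : ℝ)) := by
    rw [div_div_div_eq]
    ring
  rw [e1, ← Real.rpow_add (by norm_num), div_le_iff₀ (by positivity), ← Real.rpow_add (by norm_num)]
  calc M ^ 2 ≤ ((2 : ℝ) ^ ((2 / 3 + 1 / 24) * (q : ℝ))) ^ 2 := by gcongr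
    _ = 2 ^ (-(1 / 12 : ℝ) * (q : ℝ) + ((q : ℝ) / 2 + q)) := by
        rw [← Real.rpow_natCast, ← Real.rpow_mul (by norm_num)]
        congr 1
        push_cast
        ring

end Pool.Agent.Results.MP_278060_co.UpperBound
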